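import Pool.Agent.TD6.Psi

set_option autoImplicit false
set_option linter.unusedSectionVars false

namespace Pool.Agent.TD6

open Finset Pool.Agent.TD5

variable {ι V : Type*} [DecidableEq ι] [DecidableEq V] {e : ι → Finset V} {W : Finset ι}

/-- `W` is a minimal counterexample. -/
structure Mx (e : ι → Finset V) (W : Finset ι) : Prop where
  hs : Sz e
  ih : ∀ (e' : ι → Finset V) (X : Finset ι), Sz e' → X.card < W.card →
    26 * tau e' X ≤ psi e' X + ks e' X
  neg : psi e W + ks e W < 26 * tau e W

theorem Mx.hne (h : Mx e W) (i : ι) : (e i).Nonempty := h.hs.hne i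

theorem Mx.nonempty (h : Mx e W) : W.Nonempty := by
  rw [nonempty_iff_ne_empty]
  rintro rfl
  have := h.neg
  rw [tau_empty] at this
  omega

theorem card_lt_of_ne {X W : Finset ι} (hX : X ⊆ W) (hne : X ≠ W) : X.card < W.card :=
  card_lt_card (Finset.ssubset_iff_subset_ne.2 ⟨hX, hne⟩)

theorem Mx.sub (h : Mx e W) {X : Finset ι} (hX : X ⊆ W) (hne : X ≠ W) :
    26 * tau e X ≤ psi e X + ks e X := h.ih e X h.hs (card_lt_of_ne hX hne)

theorem Mx.conn (h : Mx e W) : Conn e W := by
  intro X hX h1 h2 hsep
  have h3 := h.sub hX h2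
  have h4 : W \ X ≠ W := by
    obtain ⟨i, hi⟩ := h1
    intro hcon
    have := hX hi
    rw [← hcon] at this
    exact (mem_sdiff.1 this).2 hi
  have h5 := h.sub sdiff_subset h4
  have h6 : X ∪ (W \ X) = W := union_sdiff_of_subset hX
  have h7 := tau_union h.hne X (W \ X)
  have h8 := psi_union h.hs hsep
  have h9 := ks_add h.hs hsep
  have h11 := h.neg
  rw [h6] at h7 h8 h9
  omega

theorem Mx.comp_self (h : Mx e W) : IsComp e W W :=
  ⟨Subset.refl _, h.nonempty, by rw [sdiff_self]; exact sep_empty W, h.conn⟩

theorem Mx.not_special (h : Mx e W) : ¬ Special e W := by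
  classical
  intro hsp
  have h1 : 0 < ks e W := by
    unfold ks
    rw [card_pos]
    exact ⟨W, mem_filter.2 ⟨mem_comps.2 h.comp_self, hsp⟩⟩
  have h2 := hsp.psi_eq
  have h3 := h.neg
  omega

theorem Mx.psi_lt (h : Mx e W) : psi e W < 26 * tau e W := by
  have := h.neg
  omega

theorem Mx.not_closed (h : Mx e W) {X : Finset ι} (hX : X ⊆ W) (h1 : X.Nonempty)
    (h2 : X ≠ W) : ¬ TD5.Sep e X (W \ X) := h.conn X hX h1 h2

theorem pack_ks (hs : Sz e) (B : Finset (Finset ι))
    (hB : ∀ P ∈ B, ∀ P' ∈ B, P ≠ P' → TD5.Sep e P P') :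
    ∑ P ∈ B, ks e P ≤ ks e (B.biUnion id) := by
  induction B using Finset.induction_on with
  | empty => simp
  | insert P s hP ih =>
    have h1 := ih (fun P' hP' P'' hP'' hn =>
      hB P' (mem_insert_of_mem hP') P'' (mem_insert_of_mem hP'') hn)
    have h4 : TD5.Sep e P (s.biUnion id) := by
      apply sep_biUnion
      intro P' hP'
      apply hB P (mem_insert_self _ _) P' (mem_insert_of_mem hP')
      rintro rfl
      exact hP hP'
    have h5 : (insert P s).biUnion id = P ∪ s.biUnion id := by
      rw [biUnion_insert]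
      rfl
    rw [h5, sum_insert hP]
    exact (Nat.add_le_add_left h1 _).trans (ks_add hs h4)

theorem pack_tau (hne : ∀ i, (e i).Nonempty) (B : Finset (Finset ι)) :
    tau e (B.biUnion id) ≤ ∑ P ∈ B, tau e P := tau_biUnion hne B id

theorem card_cols_le_ws (hs : Sz e) (N : Finset ι) : (cols e N).card ≤ ws e N := by
  refine card_biUnion_le.trans ?_
  unfold ws
  apply sum_le_sum
  intro i _
  rcases hs i with h | h
  · rw [wt_three h, h]
    omega
  · rw [wt_four h, h]
    omega

/-- Bound for two separated parts. -/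
theorem psi_split (hs : Sz e) {X Y Z W : Finset ι} (hsep : TD5.Sep e X Y) (hX : X ⊆ W)
    (hY : Y ⊆ W) (hZ : Z ⊆ W) (hdX : Disjoint X Z) (hdY : Disjoint Y Z) :
    psi e X + psi e Y + ws e Z ≤ psi e W := by
  have h1 := psi_sub (e := e) (union_subset hX hY) hZ (disjoint_union_left.2 ⟨hdX, hdY⟩)
    (S := ∅) (empty_subset _) (disjoint_empty_right _)
  rw [psi_union hs hsep, card_empty] at h1
  omega

/-- The case of maximum degree three. -/
structure Low (e : ι → Finset V) (W : Finset ι) : Prop extends Mx e W where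
  hD : ∀ x, (rho e W x).card ≤ 3

theorem Low.deg (h : Low e W) {X : Finset ι} (hX : X ⊆ W) (x : V) :
    (rho e X x).card ≤ 3 := (card_le_card (rho_mono hX x)).trans (h.hD x)

theorem Low.ge (h : Low e W) {X : Finset ι} (hX : X ⊆ W) : 13 * X.card ≤ psi e X :=
  psi_ge h.hs (h.deg hX)

theorem Low.not_seven (h : Low e W) {P : Finset ι} (hP : P ⊆ W) (hsp : Special e P) :
    P.card = 3 ∧ (cols e P).card = 6 ∧ tau e P = 2 ∧ psi e P = 51 := by
  have h1 := h.ge hP
  have h2 := hsp.ws_eq
  unfold psi at h1 ⊢
  rcases hsp.2 with ⟨h3, h4, h5⟩ | ⟨h3, h4, h5⟩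
  · refine ⟨h3, h4, h5, ?_⟩
    omega
  · omega

/-- The weaker bound without exceptions. -/
theorem Low.hy (h : Low e W) (n : ℕ) : ∀ X, X ⊆ W → X ≠ W → X.card = n →
    24 * tau e X + X.card ≤ psi e X := by
  induction n using Nat.strong_induction_on with
  | _ n ih =>
    intro X hX hXW hn
    by_cases hk : ks e X = 0
    · have h1 := h.sub hX hXW
      have h2 := h.ge hX
      omega
    · obtain ⟨P, hP, hsp⟩ := exists_special hk
      obtain ⟨h3, -, h5, h6⟩ := h.not_seven (hP.sub.trans hX) hsp
      have h7 := card_sdiff_add_card_eq_card hP.sub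
      have h8 : X \ P ≠ W := by
        intro hcon
        have := card_le_card hX
        rw [← hcon] at this
        omega
      have h9 := ih (X \ P).card (by omega) (X \ P) (sdiff_subset.trans hX) h8 rfl
      have h10 := psi_union h.hs hP.closed
      have h11 := tau_union h.hne P (X \ P)
      rw [union_sdiff_of_subset hP.sub] at h10 h11
      omega

theorem Low.HY (h : Low e W) {X : Finset ι} (hX : X ⊆ W) (hXW : X ≠ W) :
    24 * tau e X + X.card ≤ psi e X := h.hy _ X hX hXW rfl

theorem Low.tau_eq (h : Low e W) : 2 * tau e W = W.card + 1 := by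
  obtain ⟨A, Q, B, hc, hW, hB, hbad, hk⟩ := key_cover h.hne W
  by_cases hWB : W ∈ B
  · have h1 : B ⊆ {W} := by
      intro P hP
      rw [mem_singleton]
      by_contra hcon
      obtain ⟨i, hi⟩ := hc.nonempty (hB hP)
      have h2 := hc.disj P (hB hP) W (hB hWB) hcon
      exact disjoint_left.1 h2 hi (mem_sdiff.1 (hc.mem P (hB hP) hi)).1
    have h2 := card_le_card h1
    rw [card_singleton] at h2
    have h3 := hbad W hWB
    omega
  · exfalso
    have hPW : ∀ P ∈ B, P ⊆ W := fun P hP => (hc.mem P (hB hP)).trans sdiff_subset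
    have hsepB : ∀ P ∈ B, ∀ P' ∈ B, P ≠ P' → TD5.Sep e P P' :=
      fun P hP P' hP' hn => hc.sep (hB hP) (hB hP') hn
    obtain ⟨h1, h2⟩ := pack_psi h.hs B hsepB
    have h3 := pack_ks h.hs B hsepB
    have h4 : ∑ P ∈ B, (13 * P.card + 13) ≤ ∑ P ∈ B, (psi e P + ks e P) := by
      apply sum_le_sum
      intro P hP
      have h5 := h.sub (hPW P hP) (fun hcon => hWB (hcon ▸ hP))
      have h6 := hbad P hP
      omega
    rw [sum_add_distrib, sum_add_distrib, ← mul_sum, sum_const, smul_eq_mul] at h4
    set U := B.biUnion id with hU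
    set N := nA e A B with hN
    set Y := (W \ U) \ N with hY
    have hUW : U ⊆ W := biUnion_subset.2 hPW
    have hNW : N ⊆ W := (filter_subset _ _).trans hc.sub
    have hsepU : TD5.Sep e U Y := sep_all hc hB
    have hcard := card_all hc hB
    rw [← hU, ← hN, ← hY] at hcard
    have hdU : Disjoint U N := by
      refine disjoint_left.2 ?_
      intro i hi hi'
      obtain ⟨P, hP, hiP⟩ := mem_biUnion.1 hi
      exact (mem_sdiff.1 (hc.mem P (hB hP) hiP)).2 ((mem_nA.1 hi').1)
    have hYW : Y ⊆ W := sdiff_subset.trans sdiff_subset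
    have h5 := h.ge hYW
    have h6 := psi_split h.hs hsepU hUW hYW hNW hdU sdiff_disjoint
    have h7 : ks e U ≤ ws e N := by
      refine le_trans ?_ (card_cols_le_ws h.hs N)
      apply ks_le
      intro P hP hsp
      apply exists_col_of_not_sep
      intro hsep
      refine h.not_closed (hP.sub.trans hUW) hP.ne ?_ ?_
      · rintro rfl
        exact h.not_special hsp
      · refine ((hP.closed.union_right hsep).union_right
          (hsepU.mono hP.sub (Subset.refl _))).mono (Subset.refl _) ?_
        intro i hi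
        obtain ⟨h8, h9⟩ := mem_sdiff.1 hi
        rw [mem_union, mem_union, mem_sdiff, hY, mem_sdiff, mem_sdiff]
        by_cases h10 : i ∈ U
        · exact Or.inl (Or.inl ⟨h10, h9⟩)
        · by_cases h11 : i ∈ N
          · exact Or.inl (Or.inr h11)
          · exact Or.inr ⟨⟨h8, h10⟩, h11⟩
    have h8 := h.neg
    omega

theorem Low.val_le (h : Low e W) : psi e W ≤ 13 * W.card + 12 := by
  have h1 := h.tau_eq
  have h2 := h.psi_lt
  omega

/-- There are vertices of degree three. -/
theorem Low.no_pairs (h : Low e W) (h2 : ∀ x, (rho e W x).card ≤ 2) : False := by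
  have h1 := (psi_count_two h.hs h2 (S := ∅) (empty_subset _) (by simp)).1
  have hv := h.val_le
  have ht := h.tau_eq
  rw [card_empty] at h1
  have hcase : W.card = 1 ∨ W.card = 3 := by
    have := h.nonempty.card_pos
    omega
  rcases hcase with hc | hc
  · obtain ⟨a, rfl⟩ := card_eq_one.1 hc
    rw [psi_singleton] at hv
    have h3 := h.hs a
    have h4 := wt_cases e a
    rcases h3 with h3 | h3
    · rw [wt_three h3, h3] at hv
      omega
    · rw [wt_four h3, h3] at hv
      omega
  · have h51 : psi e W = 51 := by omega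
    have h3 : (W.filter (fun i => (e i).card = 3)).card = 0 := by
      by_contra hcon
      -- a three-edge costs one more
      have h5 : ∑ i ∈ W, (e i).card ≤ 2 * (cols e W).card := by
        have := (psi_count_two h.hs h2 (S := ∅) (empty_subset _) (by simp)).2
        simpa using this
      have h6 : 17 * W.card + (W.filter (fun i => (e i).card = 3)).card ≤
          ws e W + 3 * ∑ i ∈ W, (e i).card := by
        unfold ws
        rw [card_filter, mul_sum, mul_comm 17, ← smul_eq_mul, ← sum_const, ← sum_add_distrib,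
          ← sum_add_distrib]
        apply sum_le_sum
        intro i _
        rcases h.hs i with h7 | h7
        · rw [wt_three h7, h7]
          simp
        · rw [wt_four h7, h7]
          simp
      unfold psi at h51
      omega
    have h4 : ∀ i ∈ W, (e i).card = 4 := by
      intro i hi
      rcases h.hs i with h5 | h5
      · exfalso
        rw [card_eq_zero, filter_eq_empty_iff] at h3
        exact h3 hi h5
      · exact h5
    apply h.not_special
    refine ⟨h4, Or.inl ⟨hc, ?_, by omega⟩⟩
    have h5 : ws e W = 5 * W.card := by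
      unfold ws
      rw [sum_congr rfl (fun i hi => wt_four (h4 i hi)), sum_const, smul_eq_mul, mul_comm]
    unfold psi at h51
    omega

theorem Low.exists_triple (h : Low e W) : ∃ v, (rho e W v).card = 3 := by
  by_contra hcon
  push Not at hcon
  apply h.no_pairs
  intro x
  have h1 := h.hD x
  have h2 := hcon x
  omega

end Pool.Agent.TD6
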