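import Pool.Agent.TD5.Main

set_option autoImplicit false
set_option linter.unusedSectionVars false

namespace Pool.Agent.TD6

open Finset Pool.Agent.TD5

variable {ι V : Type*} [DecidableEq ι] [DecidableEq V] {e : ι → Finset V}

/-- All edges have three or four vertices. -/
def Sz (e : ι → Finset V) : Prop := ∀ i, (e i).card = 3 ∨ (e i).card = 4

theorem Sz.hne (hs : Sz e) (i : ι) : (e i).Nonempty :=
  card_pos.1 (by have := hs i; omega)

theorem Sz.le4 (hs : Sz e) (i : ι) : (e i).card ≤ 4 := by have := hs i; omega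

theorem Sz.ge3 (hs : Sz e) (i : ι) : 3 ≤ (e i).card := by have := hs i; omega

/-- The weight of an edge. -/
def wt (e : ι → Finset V) (i : ι) : ℕ := if (e i).card = 4 then 5 else 9

theorem wt_four {i : ι} (h : (e i).card = 4) : wt e i = 5 := by simp [wt, h]

theorem wt_three {i : ι} (h : (e i).card = 3) : wt e i = 9 := by simp [wt, h]

theorem wt_cases (e : ι → Finset V) (i : ι) : wt e i = 5 ∨ wt e i = 9 := by
  unfold wt
  split_ifs
  · exact Or.inl rfl
  · exact Or.inr rfl

theorem wt_ge (e : ι → Finset V) (i : ι) : 5 ≤ wt e i := by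
  have := wt_cases e i
  omega

/-- The total weight of the edges of `W`. -/
def ws (e : ι → Finset V) (W : Finset ι) : ℕ := ∑ i ∈ W, wt e i

/-- The weight of `W`. -/
def psi (e : ι → Finset V) (W : Finset ι) : ℕ := ws e W + 6 * (cols e W).card

theorem ws_ge (e : ι → Finset V) (W : Finset ι) : 5 * W.card ≤ ws e W := by
  unfold ws
  rw [mul_comm, ← smul_eq_mul]
  exact card_nsmul_le_sum _ _ _ (fun i _ => wt_ge e i)

theorem ws_le (e : ι → Finset V) (W : Finset ι) : ws e W ≤ 9 * W.card := by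
  unfold ws
  rw [mul_comm, ← smul_eq_mul]
  exact sum_le_card_nsmul _ _ _ (fun i _ => by have := wt_cases e i; omega)

theorem ws_union {X Y : Finset ι} (h : Disjoint X Y) : ws e (X ∪ Y) = ws e X + ws e Y :=
  sum_union h

theorem ws_sdiff {X W : Finset ι} (h : X ⊆ W) : ws e (W \ X) + ws e X = ws e W :=
  sum_sdiff h

theorem ws_mono {X W : Finset ι} (h : X ⊆ W) : ws e X ≤ ws e W := by
  have := ws_sdiff (e := e) h
  omega

theorem ws_parity (e : ι → Finset V) (W : Finset ι) : ws e W % 2 = W.card % 2 := by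
  induction W using Finset.induction_on with
  | empty => rfl
  | insert a s ha ih =>
    unfold ws at *
    rw [sum_insert ha, card_insert_of_notMem ha]
    have := wt_cases e a
    omega

theorem psi_parity (e : ι → Finset V) (W : Finset ι) : psi e W % 2 = W.card % 2 := by
  have := ws_parity e W
  unfold psi
  omega

theorem psi_union (hs : Sz e) {X Y : Finset ι} (h : Sep e X Y) :
    psi e (X ∪ Y) = psi e X + psi e Y := by
  unfold psi
  rw [ws_union (h.disj hs.hne), h.card_cols]
  ring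

theorem psi_empty : psi e (∅ : Finset ι) = 0 := by simp [psi, ws, cols]

theorem psi_singleton (i : ι) : psi e {i} = wt e i + 6 * (e i).card := by
  simp [psi, ws, cols]

/-- Counting: vertices of degree at most three. -/
theorem psi_count (hs : Sz e) {X : Finset ι} (hD : ∀ x, (rho e X x).card ≤ 3) {S : Finset V}
    (hS : S ⊆ cols e X) (hS2 : ∀ x ∈ S, (rho e X x).card ≤ 2) :
    13 * X.card + 2 * S.card + 2 * (X.filter (fun i => (e i).card = 3)).card ≤ psi e X := by
  have h1 : ∑ i ∈ X, (e i).card + S.card ≤ 3 * (cols e X).card := by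
    rw [Pool.Agent.TD5.sum_card, ← sum_sdiff hS]
    have a1 : ∑ x ∈ cols e X \ S, (rho e X x).card ≤ (cols e X \ S).card * 3 := by
      rw [← smul_eq_mul]
      exact sum_le_card_nsmul _ _ _ (fun x _ => hD x)
    have a2 : ∑ x ∈ S, (rho e X x).card ≤ S.card * 2 := by
      rw [← smul_eq_mul]
      exact sum_le_card_nsmul _ _ _ (fun x hx => hS2 x hx)
    have a3 := card_sdiff_add_card_eq_card hS
    omega
  have h2 : 13 * X.card + 2 * (X.filter (fun i => (e i).card = 3)).card =
      ws e X + 2 * ∑ i ∈ X, (e i).card := by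
    unfold ws
    rw [card_filter, mul_sum, mul_sum, ← sum_add_distrib, mul_comm 13, ← smul_eq_mul,
      ← sum_const, ← sum_add_distrib]
    apply sum_congr rfl
    intro i _
    rcases hs i with h | h
    · rw [wt_three h, h]
      simp
    · rw [wt_four h, h]
      simp
  unfold psi
  omega

theorem psi_ge (hs : Sz e) {X : Finset ι} (hD : ∀ x, (rho e X x).card ≤ 3) :
    13 * X.card ≤ psi e X := by
  have := psi_count hs hD (S := ∅) (empty_subset _) (by simp)
  omega

/-- Counting: vertices of degree at most two. -/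
theorem psi_count_two (hs : Sz e) {X : Finset ι} (hD : ∀ x, (rho e X x).card ≤ 2)
    {S : Finset V} (hS : S ⊆ cols e X) (hS2 : ∀ x ∈ S, (rho e X x).card ≤ 1) :
    17 * X.card + 3 * S.card ≤ psi e X ∧ ∑ i ∈ X, (e i).card + S.card ≤
      2 * (cols e X).card := by
  have h1 : ∑ i ∈ X, (e i).card + S.card ≤ 2 * (cols e X).card := by
    rw [Pool.Agent.TD5.sum_card, ← sum_sdiff hS]
    have a1 : ∑ x ∈ cols e X \ S, (rho e X x).card ≤ (cols e X \ S).card * 2 := by
      rw [← smul_eq_mul]
      exact sum_le_card_nsmul _ _ _ (fun x _ => hD x)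
    have a2 : ∑ x ∈ S, (rho e X x).card ≤ S.card * 1 := by
      rw [← smul_eq_mul]
      exact sum_le_card_nsmul _ _ _ (fun x hx => hS2 x hx)
    have a3 := card_sdiff_add_card_eq_card hS
    omega
  refine ⟨?_, h1⟩
  have h2 : 17 * X.card ≤ ws e X + 3 * ∑ i ∈ X, (e i).card := by
    unfold ws
    rw [mul_sum, mul_comm 17, ← smul_eq_mul, ← sum_const, ← sum_add_distrib]
    apply sum_le_sum
    intro i _
    rcases hs i with h | h
    · rw [wt_three h, h]
      omega
    · rw [wt_four h, h]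
      omega
  unfold psi
  omega

/-! ### Components -/

theorem closed_trans {P X R : Finset ι} (hX : X ⊆ P) (h1 : Sep e X (P \ X))
    (h2 : Sep e P (R \ P)) : Sep e X (R \ X) := by
  have h5 : R \ X ⊆ (P \ X) ∪ (R \ P) := by
    intro i hi
    rw [mem_union, mem_sdiff, mem_sdiff]
    rw [mem_sdiff] at hi
    by_cases h : i ∈ P
    · exact Or.inl ⟨h, hi.2⟩
    · exact Or.inr ⟨hi.1, h⟩
  exact (h1.union_right (h2.mono hX (Subset.refl _))).mono (Subset.refl _) h5

/-- A connected component of a set of edges. -/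
structure IsComp (e : ι → Finset V) (R P : Finset ι) : Prop where
  sub : P ⊆ R
  ne : P.Nonempty
  closed : Sep e P (R \ P)
  conn : Conn e P

theorem sep_empty (P : Finset ι) : TD5.Sep e P ∅ := by
  rw [sep_iff]
  intro i _ j hj
  exact absurd hj (notMem_empty j)

theorem exists_comp {R : Finset ι} {i : ι} (hi : i ∈ R) : ∃ P, IsComp e R P ∧ i ∈ P := by
  classical
  obtain ⟨P, hP, hmin⟩ := exists_min_image
    (R.powerset.filter (fun P => Sep e P (R \ P) ∧ i ∈ P)) card
    ⟨R, mem_filter.2 ⟨mem_powerset.2 (Subset.refl _), by rw [sdiff_self]; exact sep_empty R, hi⟩⟩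
  obtain ⟨h1, h2, h3⟩ := mem_filter.1 hP
  rw [mem_powerset] at h1
  refine ⟨P, ⟨h1, ⟨i, h3⟩, h2, ?_⟩, h3⟩
  intro X hX hXne hXP hsep
  have hcard := card_sdiff_add_card_eq_card hX
  have hXpos := card_pos.2 hXne
  have hYpos : 0 < (P \ X).card := by
    rw [card_pos, sdiff_nonempty]
    intro hcon
    exact hXP (Subset.antisymm hX hcon)
  by_cases hiX : i ∈ X
  · have := hmin X (mem_filter.2 ⟨mem_powerset.2 (hX.trans h1), closed_trans hX hsep h2, hiX⟩)
    omega
  · have h4 : Sep e (P \ X) (R \ (P \ X)) := by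
      apply closed_trans sdiff_subset _ h2
      rw [Finset.sdiff_sdiff_eq_self hX]
      exact hsep.symm
    have := hmin (P \ X) (mem_filter.2 ⟨mem_powerset.2 (sdiff_subset.trans h1), h4,
      mem_sdiff.2 ⟨h3, hiX⟩⟩)
    omega

theorem IsComp.sub_of_mem {R P X : Finset ι} (hP : IsComp e R P) (hX : Sep e X (R \ X))
    {i : ι} (hi : i ∈ P) (hi' : i ∈ X) : P ⊆ X := by
  by_contra hcon
  refine hP.conn (P ∩ X) inter_subset_left ⟨i, mem_inter.2 ⟨hi, hi'⟩⟩ ?_ ?_
  · intro heq
    exact hcon (fun j hj => (mem_inter.1 (heq ▸ hj)).2)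
  · refine hX.mono inter_subset_right ?_
    intro j hj
    obtain ⟨hj1, hj2⟩ := mem_sdiff.1 hj
    exact mem_sdiff.2 ⟨hP.sub hj1, fun h' => hj2 (mem_inter.2 ⟨hj1, h'⟩)⟩

theorem IsComp.eq_of_mem {R P P' : Finset ι} (hP : IsComp e R P) (hP' : IsComp e R P')
    {i : ι} (hi : i ∈ P) (hi' : i ∈ P') : P = P' :=
  Subset.antisymm (hP.sub_of_mem hP'.closed hi hi') (hP'.sub_of_mem hP.closed hi' hi)

theorem IsComp.sep {R P P' : Finset ι} (hP : IsComp e R P) (hP' : IsComp e R P')
    (hne : P ≠ P') : Sep e P P' :=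
  hP.closed.mono (Subset.refl _) (fun _ hi => mem_sdiff.2 ⟨hP'.sub hi,
    fun h' => hne (hP.eq_of_mem hP' h' hi)⟩)

/-- The family of components. -/
noncomputable def comps (e : ι → Finset V) (R : Finset ι) : Finset (Finset ι) := by
  classical
  exact R.powerset.filter (fun P => IsComp e R P)

theorem mem_comps {R P : Finset ι} : P ∈ comps e R ↔ IsComp e R P := by
  classical
  unfold comps
  rw [mem_filter, mem_powerset]
  exact ⟨fun h => h.2, fun h => ⟨h.sub, h⟩⟩

theorem biUnion_comps (R : Finset ι) : (comps e R).biUnion id = R := by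
  ext i
  rw [mem_biUnion]
  constructor
  · rintro ⟨P, hP, hi⟩
    exact (mem_comps.1 hP).sub hi
  · intro hi
    obtain ⟨P, hP, hiP⟩ := exists_comp (e := e) hi
    exact ⟨P, mem_comps.2 hP, hiP⟩

/-- Sums over separated families. -/
theorem pack_psi (hs : Sz e) (B : Finset (Finset ι))
    (hB : ∀ P ∈ B, ∀ P' ∈ B, P ≠ P' → Sep e P P') :
    psi e (B.biUnion id) = ∑ P ∈ B, psi e P ∧ (B.biUnion id).card = ∑ P ∈ B, P.card := by
  induction B using Finset.induction_on with
  | empty => simp [psi, ws, cols]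
  | insert P s hP ih =>
    obtain ⟨h1, h3⟩ := ih (fun P' hP' P'' hP'' hn =>
      hB P' (mem_insert_of_mem hP') P'' (mem_insert_of_mem hP'') hn)
    have h4 : Sep e P (s.biUnion id) := by
      apply sep_biUnion
      intro P' hP'
      apply hB P (mem_insert_self _ _) P' (mem_insert_of_mem hP')
      rintro rfl
      exact hP hP'
    have h5 : (insert P s).biUnion id = P ∪ s.biUnion id := by
      rw [biUnion_insert]
      rfl
    rw [h5, sum_insert hP, sum_insert hP, psi_union hs h4,
      card_union_of_disjoint (h4.disj hs.hne), h1, h3]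
    exact ⟨rfl, rfl⟩

/-- The two exceptional components. -/
def Special (e : ι → Finset V) (P : Finset ι) : Prop :=
  (∀ i ∈ P, (e i).card = 4) ∧ ((P.card = 3 ∧ (cols e P).card = 6 ∧ tau e P = 2) ∨
    (P.card = 7 ∧ (cols e P).card = 7 ∧ tau e P = 3))

theorem Special.ws_eq {P : Finset ι} (h : Special e P) : ws e P = 5 * P.card := by
  unfold ws
  rw [sum_congr rfl (fun i hi => wt_four (h.1 i hi)), sum_const, smul_eq_mul, mul_comm]

theorem Special.psi_eq {P : Finset ι} (h : Special e P) : 26 * tau e P = psi e P + 1 := by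
  have h1 := h.ws_eq
  unfold psi
  rcases h.2 with ⟨h2, h3, h4⟩ | ⟨h2, h3, h4⟩ <;> omega

/-- The number of exceptional components. -/
noncomputable def ks (e : ι → Finset V) (R : Finset ι) : ℕ := by
  classical
  exact ((comps e R).filter (fun P => Special e P)).card

theorem ks_add (hs : Sz e) {X Y : Finset ι} (h : Sep e X Y) :
    ks e X + ks e Y ≤ ks e (X ∪ Y) := by
  classical
  unfold ks
  rw [← card_union_of_disjoint]
  · apply card_le_card
    intro P hP
    rcases mem_union.1 hP with hP | hP <;> obtain ⟨h1, h2⟩ := mem_filter.1 hP <;>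
      rw [mem_comps] at h1 <;> rw [mem_filter, mem_comps] <;> refine ⟨?_, h2⟩
    · refine ⟨h1.sub.trans subset_union_left, h1.ne, ?_, h1.conn⟩
      apply closed_trans h1.sub h1.closed
      refine h.mono (Subset.refl _) ?_
      intro i hi
      obtain ⟨h3, h4⟩ := mem_sdiff.1 hi
      exact (mem_union.1 h3).resolve_left h4
    · refine ⟨h1.sub.trans subset_union_right, h1.ne, ?_, h1.conn⟩
      apply closed_trans h1.sub h1.closed
      refine h.symm.mono (Subset.refl _) ?_
      intro i hi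
      obtain ⟨h3, h4⟩ := mem_sdiff.1 hi
      exact (mem_union.1 h3).resolve_right h4
  · refine disjoint_left.2 ?_
    intro P hP hP'
    have h1 := mem_comps.1 (mem_filter.1 hP).1
    have h2 := mem_comps.1 (mem_filter.1 hP').1
    obtain ⟨i, hi⟩ := h1.ne
    exact disjoint_left.1 (h.disj hs.hne) (h1.sub hi) (h2.sub hi)

/-- Choosing a vertex in every member of a separated family. -/
theorem card_le_cols (B : Finset (Finset ι)) (hB : ∀ P ∈ B, ∀ P' ∈ B, P ≠ P' → Sep e P P')
    (S : Finset V) (h : ∀ P ∈ B, ∃ x ∈ S, x ∈ cols e P) : B.card ≤ S.card := by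
  classical
  by_cases hne : B = ∅
  · simp [hne]
  obtain ⟨P0, hP0⟩ := nonempty_iff_ne_empty.2 hne
  obtain ⟨x0, -, -⟩ := h P0 hP0
  set f : Finset ι → V := fun P => if hP : P ∈ B then (h P hP).choose else x0 with hf
  have hfs : ∀ P (hP : P ∈ B), f P ∈ S ∧ f P ∈ cols e P := by
    intro P hP
    have : f P = (h P hP).choose := by simp [hf, hP]
    rw [this]
    exact (h P hP).choose_spec
  apply card_le_card_of_injOn f (fun P hP => (hfs P hP).1)
  intro P hP P' hP' heq
  by_contra hne'
  have h1 := (hfs P hP).2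
  have h2 := (hfs P' hP').2
  rw [heq] at h1
  exact disjoint_left.1 (hB P hP P' hP' hne') h1 h2

theorem ks_le (R : Finset ι) (S : Finset V)
    (h : ∀ P, IsComp e R P → Special e P → ∃ x ∈ S, x ∈ cols e P) : ks e R ≤ S.card := by
  classical
  unfold ks
  apply card_le_cols (e := e)
  · intro P hP P' hP' hne
    exact (mem_comps.1 (mem_filter.1 hP).1).sep (mem_comps.1 (mem_filter.1 hP').1) hne
  · intro P hP
    obtain ⟨h1, h2⟩ := mem_filter.1 hP
    exact h P (mem_comps.1 h1) h2

theorem ks_eq_zero {R : Finset ι} (h : ∀ P, IsComp e R P → ¬ Special e P) : ks e R = 0 := by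
  have := ks_le (e := e) R ∅ (fun P hP hS => absurd hS (h P hP))
  simpa using this

theorem exists_special {R : Finset ι} (h : ks e R ≠ 0) : ∃ P, IsComp e R P ∧ Special e P := by
  by_contra hcon
  push Not at hcon
  exact h (ks_eq_zero hcon)

/-- A component of what remains of a connected set meets the removed part. -/
theorem comp_adj {M Z P : Finset ι} (hM : Conn e M) (hZM : Z ⊆ M) (hZ : Z.Nonempty)
    (hP : IsComp e (M \ Z) P) : ¬ Sep e P Z := by
  intro hsep
  obtain ⟨z, hz⟩ := hZ
  refine hM P (hP.sub.trans sdiff_subset) hP.ne ?_ ?_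
  · rintro rfl
    exact (mem_sdiff.1 (hP.sub (hZM hz))).2 hz
  · refine (hP.closed.union_right hsep).mono (Subset.refl _) ?_
    intro i hi
    obtain ⟨h1, h2⟩ := mem_sdiff.1 hi
    rw [mem_union, mem_sdiff, mem_sdiff]
    by_cases h3 : i ∈ Z
    · exact Or.inr h3
    · exact Or.inl ⟨⟨h1, h3⟩, h2⟩

theorem exists_col_of_not_sep {P Z : Finset ι} (h : ¬ Sep e P Z) :
    ∃ x ∈ cols e Z, x ∈ cols e P := by
  obtain ⟨x, i, hi, j, hj, hxi, hxj⟩ := not_sep h
  exact ⟨x, mem_cols.2 ⟨j, hj, hxj⟩, mem_cols.2 ⟨i, hi, hxi⟩⟩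

/-- The vertices of `Z` other than `x`, if all edges of `Z` contain `x`. -/
theorem card_cols_erase (hs : Sz e) {Z : Finset ι} {x : V} (hx : ∀ i ∈ Z, x ∈ e i) :
    ((cols e Z).erase x).card ≤ 3 * Z.card := by
  have h1 : (cols e Z).erase x ⊆ Z.biUnion (fun i => (e i).erase x) := by
    intro y hy
    obtain ⟨h1, h2⟩ := mem_erase.1 hy
    obtain ⟨i, hi, hyi⟩ := mem_cols.1 h2
    exact mem_biUnion.2 ⟨i, hi, mem_erase.2 ⟨h1, hyi⟩⟩
  refine (card_le_card h1).trans ?_
  refine (card_biUnion_le_card_mul _ _ 3 ?_).trans (by rw [mul_comm])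
  intro i hi
  have h2 := card_erase_add_one (hx i hi)
  have h3 := hs.le4 i
  omega

/-- Removing all edges at a vertex of a connected set. -/
theorem ks_rho (hs : Sz e) {M : Finset ι} (hM : Conn e M) {x : V} (hx : x ∈ cols e M) :
    ks e (M \ rho e M x) ≤ 3 * (rho e M x).card := by
  refine le_trans ?_ (card_cols_erase hs (Z := rho e M x) (x := x)
    (fun i hi => (mem_rho.1 hi).2))
  apply ks_le
  intro P hP _
  have hne : (rho e M x).Nonempty := by
    obtain ⟨i, hi, hxi⟩ := mem_cols.1 hx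
    exact ⟨i, mem_rho.2 ⟨hi, hxi⟩⟩
  obtain ⟨y, hy, hyP⟩ := exists_col_of_not_sep (comp_adj hM (rho_sub M x) hne hP)
  refine ⟨y, mem_erase.2 ⟨?_, hy⟩, hyP⟩
  rintro rfl
  obtain ⟨i, hi, hyi⟩ := mem_cols.1 hyP
  obtain ⟨h1, h2⟩ := mem_sdiff.1 (hP.sub hi)
  exact h2 (mem_rho.2 ⟨h1, hyi⟩)

theorem notMem_cols_rho (M : Finset ι) (x : V) : x ∉ cols e (M \ rho e M x) := by
  intro hcon
  obtain ⟨i, hi, hyi⟩ := mem_cols.1 hcon
  obtain ⟨h1, h2⟩ := mem_sdiff.1 hi
  exact h2 (mem_rho.2 ⟨h1, hyi⟩)

/-- The weight after removing all edges at a vertex. -/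
theorem psi_rho {M : Finset ι} {x : V} (hx : x ∈ cols e M) :
    psi e (M \ rho e M x) + ws e (rho e M x) + 6 ≤ psi e M := by
  have h1 : insert x (cols e (M \ rho e M x)) ⊆ cols e M :=
    insert_subset hx (cols_mono sdiff_subset)
  have h2 := card_le_card h1
  rw [card_insert_of_notMem (notMem_cols_rho M x)] at h2
  have h3 := ws_sdiff (e := e) (rho_sub (e := e) M x)
  unfold psi
  omega

/-- The general weight comparison. -/
theorem psi_sub {X Z W : Finset ι} (hX : X ⊆ W) (hZ : Z ⊆ W) (hd : Disjoint X Z) {S : Finset V}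
    (hS : S ⊆ cols e W) (hXS : Disjoint (cols e X) S) :
    psi e X + ws e Z + 6 * S.card ≤ psi e W := by
  have h1 : cols e X ∪ S ⊆ cols e W := union_subset (cols_mono hX) hS
  have h2 := card_le_card h1
  rw [card_union_of_disjoint hXS] at h2
  have h3 := ws_mono (e := e) (union_subset hX hZ)
  rw [ws_union hd] at h3
  unfold psi
  omega

end Pool.Agent.TD6
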